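import Pool.Agent.Q264.KS.Stm5

/-!
# KS5-HPB: in a Hilbert space a minimal K-set of unit vectors is a basis that does not split
-/

namespace Pool.Agent.Q65.KS

open Module Pool.Agent.Q264.KS

universe u

section ips

variable {X : Type u} [NormedAddCommGroup X] [InnerProductSpace ℝ X]

theorem nsq_add (x y : X) (l : ℝ) :
    ‖x + l • y‖ ^ 2 = ‖x‖ ^ 2 + 2 * l * inner ℝ x y + l ^ 2 * ‖y‖ ^ 2 := by
  rw [norm_add_sq_real, real_inner_smul_right, norm_smul, mul_pow, Real.norm_eq_abs, sq_abs]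
  ring

theorem bj_iff (x y : X) : BJ x y ↔ inner ℝ x y = 0 := by
  constructor
  · intro h
    by_cases hy : y = 0
    · simp [hy]
    · have hy' : 0 < ‖y‖ ^ 2 := by positivity
      have h1 := h (-(inner ℝ x y) / ‖y‖ ^ 2)
      have h2 : ‖x‖ ^ 2 ≤ ‖x + (-(inner ℝ x y) / ‖y‖ ^ 2) • y‖ ^ 2 :=
        pow_le_pow_left₀ (norm_nonneg _) h1 2
      rw [nsq_add] at h2
      have h3 : 2 * (-(inner ℝ x y) / ‖y‖ ^ 2) * inner ℝ x y
          + (-(inner ℝ x y) / ‖y‖ ^ 2) ^ 2 * ‖y‖ ^ 2 = -((inner ℝ x y) ^ 2 / ‖y‖ ^ 2) := by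
        field_simp
        ring
      have h4 : (inner ℝ x y) ^ 2 / ‖y‖ ^ 2 ≤ 0 := by linarith
      have h5 : (inner ℝ x y) ^ 2 ≤ 0 := by
        by_contra hc
        push Not at hc
        have := div_pos hc hy'
        linarith
      exact (pow_eq_zero_iff two_ne_zero).mp (le_antisymm h5 (sq_nonneg _))
  · intro h l
    have h1 := nsq_add x y l
    rw [h] at h1
    have h2 : ‖x‖ ^ 2 ≤ ‖x + l • y‖ ^ 2 := by
      rw [h1]
      have : 0 ≤ l ^ 2 * ‖y‖ ^ 2 := by positivity
      linarith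
    exact (pow_le_pow_iff_left₀ (norm_nonneg _) (norm_nonneg _) two_ne_zero).mp h2

theorem kill {A : Set X} (hK : IsK A) (T : X →ₗ[ℝ] X) (hT : ∀ x ∈ A, Pres T x) {z : X}
    (hz : z ≠ 0) (hTz : T z = 0) : T = 0 := by
  obtain ⟨c, U, hU, rfl⟩ := hK T hT
  have h := hTz
  rw [LinearMap.smul_apply, smul_eq_zero] at h
  rcases h with h | h
  · rw [h, zero_smul]
  · exfalso
    apply hz
    rw [← norm_eq_zero, ← hU z, h, norm_zero]

theorem pres_of_zero (T : X →ₗ[ℝ] X) {x : X} (h : T x = 0) : Pres T x := by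
  intro y _ l
  rw [h, norm_zero]
  exact norm_nonneg _

theorem conn_of_isK [FiniteDimensional ℝ X] {A : Set X} (h1 : ∀ x ∈ A, ‖x‖ = 1) (hK : IsK A) :
    Conn A := by
  intro A₁ A₂ hA hne₁ hne₂ horth
  let W := Submodule.span ℝ A₁
  let T : X →ₗ[ℝ] X := (W.starProjection : X →L[ℝ] X).toLinearMap
  have hT1 : ∀ x ∈ A₁, T x = x := fun x hx =>
    Submodule.starProjection_eq_self_iff.mpr (Submodule.subset_span hx)
  have hT2 : ∀ x ∈ A₂, T x = 0 := by
    intro y hy
    have hy' : y ∈ Wᗮ := by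
      rw [Submodule.mem_orthogonal]
      intro u hu
      refine Submodule.span_induction (p := fun u _ => inner ℝ u y = 0) ?_ ?_ ?_ ?_ hu
      · intro x hx
        exact (bj_iff x y).mp (horth x hx y hy)
      · simp
      · intro a b _ _ ha hb
        rw [inner_add_left, ha, hb, add_zero]
      · intro c a _ ha
        rw [real_inner_smul_left, ha, mul_zero]
    exact (Submodule.starProjection_apply_eq_zero_iff _).mpr hy'
  have hsym : ∀ x y, inner ℝ (T x) y = inner ℝ x (T y) := fun x y =>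
    Submodule.inner_starProjection_left_eq_right W x y
  have hpres : ∀ x ∈ A, Pres T x := by
    intro x hx
    rw [hA] at hx
    rcases hx with hx | hx
    · intro y hxy
      rw [bj_iff] at hxy ⊢
      rw [← hsym, hT1 x hx, hT1 x hx]
      exact hxy
    · exact pres_of_zero T (hT2 x hx)
  obtain ⟨a, ha⟩ := hne₁
  obtain ⟨b, hb⟩ := hne₂
  have hb0 : b ≠ 0 := by
    intro hb0
    have := h1 b (by rw [hA]; exact Or.inr hb)
    rw [hb0, norm_zero] at this
    exact zero_ne_one this
  have hT0 := kill hK T hpres hb0 (hT2 b hb)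
  have ha0 := h1 a (by rw [hA]; exact Or.inl ha)
  have := hT1 a ha
  rw [hT0, LinearMap.zero_apply] at this
  rw [← this, norm_zero] at ha0
  exact zero_ne_one ha0

theorem span_top [FiniteDimensional ℝ X] (h2 : 2 ≤ finrank ℝ X) {A : Set X} (hK : IsK A) :
    Submodule.span ℝ A = ⊤ := by
  by_contra hne
  obtain ⟨φ, hφ, hle⟩ := Submodule.exists_le_ker_of_lt_top _ (lt_top_iff_ne_top.mpr hne)
  have hker : LinearMap.ker φ ≠ ⊥ := by
    intro hb
    have h3 := LinearMap.finrank_range_add_finrank_ker φ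
    rw [hb, finrank_bot] at h3
    have h4 : finrank ℝ (LinearMap.range φ) ≤ 1 := by
      simpa using Submodule.finrank_le (LinearMap.range φ)
    omega
  obtain ⟨z, hz, hz0⟩ := Submodule.exists_mem_ne_zero_of_ne_bot hker
  have hTz : φ.smulRight z z = 0 := by
    rw [LinearMap.smulRight_apply, LinearMap.mem_ker.mp hz, zero_smul]
  have h0 := kill hK (φ.smulRight z) (fun x hx => pres_of_zero _ (by
    rw [LinearMap.smulRight_apply, LinearMap.mem_ker.mp (hle (Submodule.subset_span hx)),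
      zero_smul])) hz0 hTz
  apply hφ
  ext v
  have h5 := LinearMap.congr_fun h0 v
  rw [LinearMap.smulRight_apply, LinearMap.zero_apply, smul_eq_zero] at h5
  rcases h5 with h5 | h5
  · rw [h5, LinearMap.zero_apply]
  · exact absurd h5 hz0

theorem conn_singleton {a : X} (ha : a ≠ 0) : Conn ({a} : Set X) := by
  intro A₁ A₂ hA hne₁ hne₂ h
  obtain ⟨x, hx⟩ := hne₁
  obtain ⟨y, hy⟩ := hne₂
  have hx' : x = a := by
    have : x ∈ ({a} : Set X) := by rw [hA]; exact Or.inl hx
    exact this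
  have hy' : y = a := by
    have : y ∈ ({a} : Set X) := by rw [hA]; exact Or.inr hy
    exact this
  have := (bj_iff x y).mp (h x hx y hy)
  rw [hx', hy', real_inner_self_eq_norm_sq] at this
  apply ha
  rw [← norm_eq_zero]
  exact (pow_eq_zero_iff two_ne_zero).mp this

theorem conn_insert {S : Set X} {x a : X} (hS : Conn S) (hx : x ∈ S) (hxa : inner ℝ x a ≠ 0)
    : Conn (insert a S) := by
  intro B₁ B₂ hB hne₁ hne₂ h
  have hS' : S = (B₁ ∩ S) ∪ (B₂ ∩ S) := by
    rw [← Set.union_inter_distrib_right, ← hB]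
    ext v
    simp only [Set.mem_inter_iff, Set.mem_insert_iff]
    tauto
  have ha : a ∈ B₁ ∪ B₂ := by rw [← hB]; exact Set.mem_insert _ _
  have hxB : x ∈ B₁ ∪ B₂ := by rw [← hB]; exact Set.mem_insert_of_mem _ hx
  by_cases h1 : (B₁ ∩ S).Nonempty
  · by_cases h2 : (B₂ ∩ S).Nonempty
    · exact hS _ _ hS' h1 h2 (fun u hu v hv => h u hu.1 v hv.1)
    · -- B₂ ⊆ {a}
      obtain ⟨b, hb⟩ := hne₂
      have hb' : b ∈ insert a S := by rw [hB]; exact Or.inr hb
      have hba : b = a := by
        rcases hb' with hb' | hb'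
        · exact hb'
        · exact absurd ⟨b, hb, hb'⟩ h2
      have hx1 : x ∈ B₁ := by
        rcases hxB with hxB | hxB
        · exact hxB
        · exact absurd ⟨x, hxB, hx⟩ h2
      have := (bj_iff x b).mp (h x hx1 b hb)
      rw [hba] at this
      exact hxa this
  · obtain ⟨b, hb⟩ := hne₁
    have hb' : b ∈ insert a S := by rw [hB]; exact Or.inl hb
    have hba : b = a := by
      rcases hb' with hb' | hb'
      · exact hb'
      · exact absurd ⟨b, hb, hb'⟩ h1
    have hx2 : x ∈ B₂ := by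
      rcases hxB with hxB | hxB
      · exact absurd ⟨x, hxB, hx⟩ h1
      · exact hxB
    have := (bj_iff b x).mp (h b hb x hx2)
    rw [hba, real_inner_comm] at this
    exact hxa this

theorem exists_fin [FiniteDimensional ℝ X] {A : Set X} (hA0 : ∀ x ∈ A, x ≠ 0)
    (hspan : Submodule.span ℝ A = ⊤) (hconn : Conn A) (hne : A.Nonempty) (k : ℕ)
    (hk : k + 1 ≤ finrank ℝ X) :
    ∃ S : Finset X, (S : Set X) ⊆ A ∧ S.card = k + 1 ∧ LinearIndepOn ℝ id (S : Set X) ∧
      Conn (S : Set X) := by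
  classical
  induction k with
  | zero =>
    obtain ⟨a, ha⟩ := hne
    refine ⟨{a}, by simpa using ha, by simp, ?_, ?_⟩
    · rw [Finset.coe_singleton]
      exact LinearIndepOn.singleton (v := id) (hA0 a ha)
    · rw [Finset.coe_singleton]
      exact conn_singleton (hA0 a ha)
  | succ k ih =>
    obtain ⟨S, hSA, hcard, hli, hc⟩ := ih (by omega)
    have hW : Submodule.span ℝ (S : Set X) ≠ ⊤ := by
      intro ht
      have h3 := finrank_span_finset_le_card (R := ℝ) S
      rw [Set.finrank, ht, finrank_top] at h3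
      omega
    obtain ⟨s, hs⟩ : S.Nonempty := by
      rw [← Finset.card_pos]; omega
    have hsplit : A = (A ∩ (Submodule.span ℝ (S : Set X) : Set X)) ∪
        (A \ (Submodule.span ℝ (S : Set X) : Set X)) := (Set.inter_union_sdiff _ _).symm
    have hA1 : (A ∩ (Submodule.span ℝ (S : Set X) : Set X)).Nonempty :=
      ⟨s, hSA hs, Submodule.subset_span hs⟩
    have hA2 : (A \ (Submodule.span ℝ (S : Set X) : Set X)).Nonempty := by
      by_contra hcon
      rw [Set.not_nonempty_iff_eq_empty, Set.sdiff_eq_empty] at hcon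
      apply hW
      rw [eq_top_iff, ← hspan]
      exact Submodule.span_le.mpr hcon
    have h4 := hconn _ _ hsplit hA1 hA2
    push Not at h4
    obtain ⟨a₁, ha₁, a₂, ha₂, h5⟩ := h4
    rw [bj_iff] at h5
    have h6 : ∃ x ∈ S, inner ℝ x a₂ ≠ 0 := by
      by_contra hcon
      push Not at hcon
      apply h5
      refine Submodule.span_induction (p := fun u _ => inner ℝ u a₂ = 0) ?_ ?_ ?_ ?_ ha₁.2
      · intro x hx
        exact hcon x hx
      · simp
      · intro a b _ _ ha hb
        rw [inner_add_left, ha, hb, add_zero]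
      · intro c a _ ha
        rw [real_inner_smul_left, ha, mul_zero]
    obtain ⟨x, hx, hxa⟩ := h6
    have hnot : a₂ ∉ S := fun hc' => ha₂.2 (Submodule.subset_span hc')
    refine ⟨insert a₂ S, ?_, ?_, ?_, ?_⟩
    · rw [Finset.coe_insert]
      exact Set.insert_subset ha₂.1 hSA
    · rw [Finset.card_insert_of_notMem hnot, hcard]
    · rw [Finset.coe_insert]
      exact hli.id_insert ha₂.2
    · rw [Finset.coe_insert]
      exact conn_insert hc hx hxa

theorem main [FiniteDimensional ℝ X] (h2 : 2 ≤ finrank ℝ X)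
    (hHPA : ∀ S : Set X, (∀ x ∈ S, ‖x‖ = 1) → IsBasis S → Conn S → IsMinK S)
    {A : Set X} (hne : A.Nonempty) (h1 : ∀ x ∈ A, ‖x‖ = 1) (hmin : IsMinK A) :
    IsBasis A ∧ Conn A := by
  have hA0 : ∀ x ∈ A, x ≠ 0 := by
    intro x hx h0
    have := h1 x hx
    rw [h0, norm_zero] at this
    exact zero_ne_one this
  have hconn := conn_of_isK h1 hmin.1
  have hspan := span_top h2 hmin.1
  obtain ⟨S, hSA, hcard, hli, hc⟩ := exists_fin hA0 hspan hconn hne (finrank ℝ X - 1) (by omega)
  have hcard' : S.card = finrank ℝ X := by omega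
  have hbasis : IsBasis (S : Set X) := by
    refine ⟨fun i => ((S.equivFinOfCardEq hcard').symm i : X), ?_, ?_⟩
    · have h3 : LinearIndependent ℝ (fun x : (S : Set X) => (x : X)) := hli
      exact h3.comp (fun i => ((S.equivFinOfCardEq hcard').symm i)) (Equiv.injective _)
    · ext v
      constructor
      · intro hv
        exact ⟨S.equivFinOfCardEq hcard' ⟨v, hv⟩, by simp⟩
      · rintro ⟨i, rfl⟩
        exact ((S.equivFinOfCardEq hcard').symm i).2
  have hK := (hHPA S (fun x hx => h1 x (hSA hx)) hbasis hc).1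
  have hEq : (S : Set X) = A := by
    by_contra hneq
    exact hmin.2 S (lt_of_le_of_ne hSA hneq) hK
  rw [hEq] at hbasis
  exact ⟨hbasis, hconn⟩

end ips

theorem t_HPB : S_HPB.{u} := by
  intro hHPA X _ _ _ h2 hH A hne h1 hmin
  have hH' := hH
  obtain ⟨B, hs, hn⟩ := hH'
  have hpar : ∀ x y : X, ‖x + y‖ * ‖x + y‖ + ‖x - y‖ * ‖x - y‖
      = 2 * (‖x‖ * ‖x‖ + ‖y‖ * ‖y‖) := by
    intro x y
    have e1 := hn (x + y)
    have e2 := hn (x - y)
    have e3 := hn x
    have e4 := hn y
    simp only [map_add, map_sub, LinearMap.add_apply, LinearMap.sub_apply] at e1 e2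
    nlinarith
  let _ : InnerProductSpace ℝ X := InnerProductSpace.ofNorm ℝ hpar
  exact main h2 (fun S hS hb hc => hHPA X h2 hH S hS hb hc) hne h1 hmin

end Pool.Agent.Q65.KS
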